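import Pool.Agent.helper11.RPQ.SpecU

set_option autoImplicit false

open scoped MatrixGroups ContDiff Topology UpperHalfPlane ComplexConjugate
open UpperHalfPlane MeasureTheory Filter Set

namespace Pool.Agent.RPQ

open Pool.Agent.RS
open Pool.Agent.MS (BA BB st pf gk Dk amk)

/-- a finite net of the invariant 1-Lipschitz functions with values in `[0, 1]` -/
theorem LNT_net (Γ : Subgroup SL(2, ℝ)) (K : Set ℍ) (hK : IsCompact K) (hc : ∀ z : ℍ, ∃ γ : Γ, γ • z ∈ K) (e : ℝ) (he : 0 < e) :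
    ∃ S : Set (ℍ → ℝ), S.Finite ∧ (∀ h ∈ S, QU.Inv Γ h ∧ ∀ z, 0 ≤ h z ∧ h z ≤ 1) ∧
      ∀ g : ℍ → ℝ, QU.Inv Γ g → (∀ z, 0 ≤ g z ∧ g z ≤ 1) → (∀ z w, |g z - g w| ≤ dist z w) → ∃ h' ∈ S, ∀ z, |g z - h' z| ≤ e := by
  have h4 : 0 < e / 4 := by positivity
  obtain ⟨t, -, ht, hKt⟩ := hK.finite_cover_balls h4
  set G : Set (ℍ → ℝ) := {g | QU.Inv Γ g ∧ (∀ z, 0 ≤ g z ∧ g z ≤ 1) ∧ ∀ z w, |g z - g w| ≤ dist z w} with hG
  let Φ : (ℍ → ℝ) → (t → ℤ) := fun g y => ⌊g y / (e / 4)⌋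
  have := ht.to_subtype
  have hR : (Φ '' G).Finite := by
    have h1 : (Set.pi Set.univ fun _ : t => Set.Icc (0 : ℤ) ⌊1 / (e / 4)⌋).Finite := Set.Finite.pi fun _ => Set.finite_Icc _ _
    refine h1.subset ?_
    rintro _ ⟨g, ⟨_, hg, _⟩, rfl⟩
    intro y _
    refine ⟨Int.floor_nonneg.mpr (div_nonneg (hg y).1 h4.le), Int.floor_le_floor ?_⟩
    exact div_le_div_of_nonneg_right (hg y).2 h4.le
  obtain ⟨S, hS, hb⟩ := Set.exists_subset_bijOn G Φ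
  refine ⟨S, hb.finite_iff_finite.mpr hR, fun h hh => ⟨(hS hh).1, (hS hh).2.1⟩, ?_⟩
  intro g g1 g2 g3
  obtain ⟨h', hh', hΦ⟩ := hb.surjOn ⟨g, ⟨g1, g2, g3⟩, rfl⟩
  obtain ⟨k1, k2, k3⟩ := hS hh'
  refine ⟨h', hh', fun z => ?_⟩
  obtain ⟨γ, hγ⟩ := hc z
  rw [← g1.2 γ z, ← k1.2 γ z]
  obtain ⟨y, hy, hzy⟩ := Set.mem_iUnion₂.mp (hKt hγ)
  rw [Metric.mem_ball] at hzy
  have hf : ⌊h' y / (e / 4)⌋ = ⌊g y / (e / 4)⌋ := congrFun hΦ ⟨y, hy⟩
  have hf2 := Int.abs_sub_lt_one_of_floor_eq_floor hf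
  have hf3 : |h' y - g y| < e / 4 := by
    rw [← sub_div, abs_div, abs_of_pos h4, div_lt_one h4] at hf2
    exact hf2
  have a1 := g3 (γ • z) y
  have a2 := k3 (γ • z) y
  have e1 : g (γ • z) - h' (γ • z) = (g (γ • z) - g y) - (h' y - g y) - (h' (γ • z) - h' y) := by ring
  rw [e1]
  have b1 := abs_sub (g (γ • z) - g y - (h' y - g y)) (h' (γ • z) - h' y)
  have b2 := abs_sub (g (γ • z) - g y) (h' y - g y)
  linarith

theorem LNT_proof : LNT_stmt := by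
  intro Γ hΓ
  obtain ⟨K, hK, hc⟩ := hΓ.cocompact
  have hd : ∀ z ∈ K, ∀ w ∈ K, dist z w ≤ Metric.diam K := fun z hz w hw => Metric.dist_le_diam_of_mem hK.isBounded hz hw
  refine ⟨Metric.diam K + 1, by linarith [Metric.diam_nonneg (s := K)], fun e he => ?_⟩
  obtain ⟨S, hS, hS1, hS2⟩ := LNT_net Γ K hK hc e he
  have hD : 0 < Metric.diam K + 1 := by linarith [Metric.diam_nonneg (s := K)]
  refine ⟨hS.toFinset, fun h hh => hS1 h (hS.mem_toFinset.mp hh), ?_⟩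
  intro h hh hl
  have key : ∀ z w, |h z - h w| ≤ Metric.diam K + 1 := by
    intro z w
    obtain ⟨γ, hγ⟩ := hc z
    obtain ⟨δ, hδ⟩ := hc w
    rw [← hh.2 γ z, ← hh.2 δ w]
    linarith [hl (γ • z) (δ • w), hd _ hγ _ hδ]
  have hbdd : BddBelow (Set.range h) := by
    refine ⟨h I - (Metric.diam K + 1), ?_⟩
    rintro _ ⟨z, rfl⟩
    linarith [(abs_le.mp (key z I)).1]
  have hinf : ∀ z, ⨅ w, h w ≤ h z := fun z => ciInf_le hbdd z
  have hinf2 : ∀ z, h z - (Metric.diam K + 1) ≤ ⨅ w, h w := fun z => le_ciInf fun w => by linarith [(abs_le.mp (key z w)).2]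
  obtain ⟨h', h1, h2⟩ := hS2 (fun z => (h z - ⨅ w, h w) / (Metric.diam K + 1)) ⟨(hh.1.sub continuous_const).div_const _, fun γ z => by
      show (h (γ • z) - _) / _ = _
      rw [hh.2 γ z]⟩
    (fun z => ⟨div_nonneg (by linarith [hinf z]) hD.le, (div_le_one hD).mpr (by linarith [hinf2 z])⟩)
    (fun z w => by
      rw [← sub_div, abs_div, abs_of_pos hD, div_le_iff₀ hD]
      have e1 : h z - (⨅ w, h w) - (h w - ⨅ w, h w) = h z - h w := by ring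
      rw [e1]
      nlinarith [hl z w, Metric.diam_nonneg (s := K), dist_nonneg (x := z) (y := w), mul_nonneg (dist_nonneg (x := z) (y := w)) (Metric.diam_nonneg (s := K))])
  exact ⟨⨅ w, h w, h', hS.mem_toFinset.mpr h1, h2⟩

end Pool.Agent.RPQ
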